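import Pool.Agent.C4U.Stmts

/-!
# Squad C4U (MP_be2f05_lc), row AN1: polynomials of the length of a state
-/

set_option autoImplicit false

namespace Pool.Agent.C4U.H32

/-- **AN1**. -/
theorem an1 : An1Stmt := by
  intro P
  refine ⟨2 * P.natDegree, fun k => ?_⟩
  refine ⟨((P.eval 1 * (k + 4 + (2 * k + k * (k - 1) / 2)) ^ P.natDegree : ℕ) : ℝ),
    Nat.cast_nonneg _, fun N => ?_⟩
  have key : P.eval (k + N + N * N + N + (2 * k + k * (k - 1) / 2) * (N + 1) + 4) ≤
      P.eval 1 * (k + 4 + (2 * k + k * (k - 1) / 2)) ^ P.natDegree * (N + 1) ^ (2 * P.natDegree) := by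
    generalize 2 * k + k * (k - 1) / 2 = D
    have h1 : k + N + N * N + N + D * (N + 1) + 4 ≤ (k + 4 + D) * (N + 1) ^ 2 := by
      have h2 : (k + 4 + D) * (N + 1) ^ 2 = k + N + N * N + N + D * (N + 1) + 4 +
          (k * (N * N + 2 * N) + 3 * N * N + 6 * N + D * (N * N + N)) := by
        ring
      omega
    have h3 : 1 ≤ k + N + N * N + N + D * (N + 1) + 4 := by omega
    generalize k + N + N * N + N + D * (N + 1) + 4 = m at h1 h3
    calc P.eval m = ∑ i ∈ Finset.range (P.natDegree + 1), P.coeff i * m ^ i :=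
          Polynomial.eval_eq_sum_range m
      _ ≤ ∑ i ∈ Finset.range (P.natDegree + 1), P.coeff i * 1 ^ i * m ^ P.natDegree := by
          refine Finset.sum_le_sum fun i hi => ?_
          rw [one_pow, mul_one]
          refine Nat.mul_le_mul_left _ (Nat.pow_le_pow_right h3 ?_)
          have := Finset.mem_range.1 hi
          omega
      _ = P.eval 1 * m ^ P.natDegree := by
          rw [← Finset.sum_mul, ← Polynomial.eval_eq_sum_range]
      _ ≤ P.eval 1 * ((k + 4 + D) * (N + 1) ^ 2) ^ P.natDegree :=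
          Nat.mul_le_mul_left _ (Nat.pow_le_pow_left h1 _)
      _ = P.eval 1 * (k + 4 + D) ^ P.natDegree * (N + 1) ^ (2 * P.natDegree) := by
          rw [mul_pow, ← pow_mul, mul_assoc]
  have h4 : (((P.eval (k + N + N * N + N + (2 * k + k * (k - 1) / 2) * (N + 1) + 4)) : ℕ) : ℝ) ≤
      ((P.eval 1 * (k + 4 + (2 * k + k * (k - 1) / 2)) ^ P.natDegree *
        (N + 1) ^ (2 * P.natDegree) : ℕ) : ℝ) := Nat.cast_le.2 key
  refine h4.trans (le_of_eq ?_)
  rw [Nat.cast_mul _ ((N + 1) ^ (2 * P.natDegree)), Nat.cast_pow, Nat.cast_add, Nat.cast_one]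

end Pool.Agent.C4U.H32
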