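import Pool.Agent.C4U.Stmts

/-!
# Squad C4U (MP_be2f05_lc), row PRA: numbers and conditions read from the five words
-/

set_option autoImplicit false

namespace Pool.Agent.C4U.H32

open Pool.Agent.C4F (Lt cn NumF Kit)
open Pool.Agent.Helper53_CookLevin (PGen)
open Pool.Agent.Helper53_Chan (Test Test.congr)

/-- **PRA**. -/
theorem pra : PraStmt := by
  intro K r e
  have hk : NumF r (fun ρ => (rd (At e ρ)).k) := K.var r (e 0)
  have hN : NumF r (fun ρ => (rd (At e ρ)).N) := K.var r (e 1)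
  have hk1 : NumF r (fun ρ => (rd (At e ρ)).k - 1) := K.sub r _ _ hk (K.cst r 1)
  have hdd : NumF r (fun ρ => (rd (At e ρ)).dd) :=
    K.add r _ _ (K.mul r _ _ (K.cst r 2) hk) (K.div r _ _ (K.mul r _ _ hk hk1) (K.cst r 2))
  have hcJ : NumF r (fun ρ => cn (rd (At e ρ)).J (rd (At e ρ)).N) := by
    have h1 := K.look (r + 1) (e 3).succ Lt.pos (fun ρ => (ρ 0).length) (K.var _ 0)
    exact K.cnt r (fun ρ => (rd (At e ρ)).N) (fun v ρ => (ρ (e 3))[v]? = some Lt.pos) hN h1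
  refine ⟨hk, hN, hdd, hcJ, fun x y hx hy => ?_⟩
  have hA : Test r (fun ρ => (rd (At e ρ)).A (x ρ) (y ρ)) := by
    have h1 := K.lt r _ _ hx hN
    have h2 := K.lt r _ _ hy hN
    have h3 := K.look r (e 2) Lt.pos _ (K.add r _ _ (K.mul r _ _ hx hN) hy)
    exact K.and _ _ _ h1 (K.and _ _ _ h2 h3)
  have hJ : Test r (fun ρ => (rd (At e ρ)).J (x ρ)) := K.look r (e 3) Lt.pos x hx
  have hCl : Test r (fun ρ => (rd (At e ρ)).Cl (x ρ) (y ρ)) :=
    K.or _ _ _ (K.eq r _ _ hx hy) hA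
  have hrc : NumF r (fun ρ => rc (At e ρ) (x ρ)) := by
    have hx1 : NumF (r + 1) (fun ρ => x (fun i => ρ i.succ)) := K.rename r (r + 1) Fin.succ x hx
    have h1 := K.look (r + 1) (e 4).succ Lt.tick
      (fun ρ => x (fun i => ρ i.succ) * ((ρ (e 1).succ).length + 1) + (ρ 0).length)
      (K.add _ _ _ (K.mul _ _ _ hx1 (K.add _ _ _ (K.var _ (e 1).succ) (K.cst _ 1))) (K.var _ 0))
    exact K.cnt r (fun ρ => (ρ (e 1)).length + 1)
      (fun u ρ => (ρ (e 4))[x ρ * ((ρ (e 1)).length + 1) + u]? = some Lt.tick)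
      (K.add _ _ _ (K.var r (e 1)) (K.cst r 1)) h1
  have hix : NumF r (fun ρ => (rd (At e ρ)).ix (x ρ) (y ρ)) :=
    K.add r _ _ (K.mul r _ _ (K.cst r 2) hk)
      (K.add r _ _ (K.div r _ _ (K.mul r _ _ hy (K.sub r _ _ hy (K.cst r 1))) (K.cst r 2)) hx)
  exact ⟨hA, hJ, hCl, hrc, hix⟩

end Pool.Agent.C4U.H32
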